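import Pool.Agent.Lib.MP_767201_co.SE.Main

/-!
# Structurally bounded expansion: the dichotomy for label-determined classes

All definitions are in `Pool.Agent.Lib.MP_767201_co.SE.Defs`: finite graphs `FG`, transductions (`Transduces`, with
`k` copies and finitely many colours, by a first-order formula of Mathlib's `FirstOrder.Language.Formula`), shallow
minors, `BoundedExpansion`, `StructBE`, `WeaklySparse`, `Stable`, and `LabelDet k`: adjacency of different vertices
`u`, `v` is determined by `S u ∩ S v` for label sets with at most `k` elements.
-/

set_option autoImplicit false

namespace Pool.Agent.Results.MP_767201_co.LabelDichotomy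

open Pool.Agent.Lib.MP_767201_co.SE

/-- A class of graphs in which adjacency is determined by the intersection of label sets with at most `k` elements is
stable, and it has structurally bounded expansion or it transduces a weakly sparse class which does not have bounded
expansion. -/
theorem result (k : ℕ) (C : Set FG) (h : ∀ G ∈ C, LabelDet k G) :
    Stable C ∧ (StructBE C ∨ ∃ D : Set FG, WeaklySparse D ∧ ¬ BoundedExpansion D ∧ Transduces C D) :=
  dichotomy k C h

end Pool.Agent.Results.MP_767201_co.LabelDichotomy
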